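import Mathlib

set_option autoImplicit false

namespace Pool.Agent.Results.MP_70387e_co.NonRegular

/-- The cells of the `(n,3)`-board: integer triples with all coordinates in `{1,…,n}`. -/
def board (n : ℕ) : Set (Fin 3 → ℤ) := {x | ∀ i, 1 ≤ x i ∧ x i ≤ n}

/-- Two distinct cells attack each other if `y - x = t v` with `t ≠ 0` and
`v ∈ {-1,0,1}³ ∖ {0}`. -/
def Attack (x y : Fin 3 → ℤ) : Prop :=
  ∃ (t : ℤ) (v : Fin 3 → ℤ), t ≠ 0 ∧ v ≠ 0 ∧ (∀ i, v i = -1 ∨ v i = 0 ∨ v i = 1) ∧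
    y - x = t • v

/-- A solution of the `(n,3)`-queens problem: `n²` pairwise non-attacking cells of the board. -/
def IsSolution (n : ℕ) (S : Finset (Fin 3 → ℤ)) : Prop :=
  (∀ x ∈ S, x ∈ board n) ∧ S.card = n ^ 2 ∧ ∀ x ∈ S, ∀ y ∈ S, x ≠ y → ¬ Attack x y

/-- A solution is regular if its third coordinate is, modulo `n`, an affine function with integer
coefficients of the first two. -/
def IsRegular (n : ℕ) (S : Finset (Fin 3 → ℤ)) : Prop :=
  ∃ a b c : ℤ, ∀ x ∈ S, x 2 ≡ a * x 0 + b * x 1 + c [ZMOD n]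

/-- The twist. -/
def g (i j : ℕ) : ℕ := if i % 11 = 0 ∧ j % 11 = 0 then 1 else 0

/-- Height of the queen above `(i+1, j+1)`, minus one. -/
def F (i j : ℕ) : ℕ :=
  (3 * (i % 11) + 5 * (j % 11)) % 11 + 11 * ((3 * (i / 11) + 5 * (j / 11) + g i j) % 11)

theorem F_lt (i j : ℕ) : F i j < 121 := by
  unfold F; omega

def cellOf (p : Fin 121 × Fin 121) : Fin 3 → ℤ :=
  ![(p.1.1 : ℤ) + 1, (p.2.1 : ℤ) + 1, (F p.1.1 p.2.1 : ℤ) + 1]

theorem cellOf_injective : Function.Injective cellOf := by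
  intro p q h
  have h0 : ((p.1.1 : ℤ) + 1) = (q.1.1 : ℤ) + 1 := congrFun h 0
  have h1 : ((p.2.1 : ℤ) + 1) = (q.2.1 : ℤ) + 1 := congrFun h 1
  apply Prod.ext
  · apply Fin.ext; omega
  · apply Fin.ext; omega

theorem key (i j i' j' : ℕ) (hi : i < 121) (hj : j < 121) (hi' : i' < 121) (hj' : j' < 121)
    (t v0 v1 v2 : ℤ) (h0 : v0 = -1 ∨ v0 = 0 ∨ v0 = 1) (h1 : v1 = -1 ∨ v1 = 0 ∨ v1 = 1)
    (h2 : v2 = -1 ∨ v2 = 0 ∨ v2 = 1) (hv : ¬ (v0 = 0 ∧ v1 = 0 ∧ v2 = 0))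
    (e0 : (i' : ℤ) - i = t * v0) (e1 : (j' : ℤ) - j = t * v1)
    (e2 : (F i' j' : ℤ) - F i j = t * v2) : t = 0 := by
  have hA : ∃ m : ℤ, (F i j : ℤ) = 3 * i + 5 * j - 11 * m := by
    refine ⟨(3 * i + 5 * j - F i j) / 11, ?_⟩
    unfold F; omega
  have hB : ∃ m : ℤ, (F i' j' : ℤ) = 3 * i' + 5 * j' - 11 * m := by
    refine ⟨(3 * i' + 5 * j' - F i' j') / 11, ?_⟩
    unfold F; omega
  obtain ⟨mA, hA⟩ := hA
  obtain ⟨mB, hB⟩ := hB
  have hF : (F i j : ℤ) < 121 := by exact_mod_cast F_lt i j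
  have hF' : (F i' j' : ℤ) < 121 := by exact_mod_cast F_lt i' j'
  have hFn : (0 : ℤ) ≤ (F i j : ℤ) := by positivity
  have hFn' : (0 : ℤ) ≤ (F i' j' : ℤ) := by positivity
  have ht : ∃ s : ℤ, t = 11 * s := by
    refine ⟨t / 11, ?_⟩
    rcases h0 with rfl | rfl | rfl <;> rcases h1 with rfl | rfl | rfl <;>
      rcases h2 with rfl | rfl | rfl <;> simp only [mul_zero, mul_one, mul_neg] at e0 e1 e2 <;>
      omega
  obtain ⟨s, rfl⟩ := ht
  have hm0 : i' % 11 = i % 11 := by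
    rcases h0 with rfl | rfl | rfl <;> omega
  have hm1 : j' % 11 = j % 11 := by
    rcases h1 with rfl | rfl | rfl <;> omega
  have hg : g i' j' = g i j := by unfold g; rw [hm0, hm1]
  have hC : ∃ m : ℤ, (F i j : ℤ) =
      (3 * (i % 11) + 5 * (j % 11)) % 11 + 11 * (3 * (i / 11) + 5 * (j / 11) + g i j - 11 * m) := by
    refine ⟨(3 * (i / 11) + 5 * (j / 11) + g i j) / 11, ?_⟩
    unfold F; push_cast; omega
  have hD : ∃ m : ℤ, (F i' j' : ℤ) =
      (3 * (i' % 11) + 5 * (j' % 11)) % 11 + 11 * (3 * (i' / 11) + 5 * (j' / 11) + g i' j' - 11 * m) := by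
    refine ⟨(3 * (i' / 11) + 5 * (j' / 11) + g i' j') / 11, ?_⟩
    unfold F; push_cast; omega
  obtain ⟨mC, hC⟩ := hC
  obtain ⟨mD, hD⟩ := hD
  have hm0' : (i' : ℤ) % 11 = i % 11 := by omega
  have hm1' : (j' : ℤ) % 11 = j % 11 := by omega
  have hq0 : (i' : ℤ) / 11 = i / 11 + s * v0 := by
    rcases h0 with rfl | rfl | rfl <;> omega
  have hq1 : (j' : ℤ) / 11 = j / 11 + s * v1 := by
    rcases h1 with rfl | rfl | rfl <;> omega
  rw [hg, hm0', hm1', hq0, hq1] at hD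
  generalize (3 * ((i : ℤ) % 11) + 5 * ((j : ℤ) % 11)) % 11 = r at hC hD
  generalize ((i : ℤ) / 11) = qi at hC hD hq0
  generalize ((j : ℤ) / 11) = qj at hC hD hq1
  generalize (F i j : ℤ) = A at *
  generalize (F i' j' : ℤ) = B at *
  have hs : ∃ w : ℤ, s = 11 * w := by
    refine ⟨s / 11, ?_⟩
    clear e0 e1 hA hB hq0 hq1 hm0 hm1 hm0' hm1'
    rcases h0 with rfl | rfl | rfl <;> rcases h1 with rfl | rfl | rfl <;>
      rcases h2 with rfl | rfl | rfl <;> simp only [mul_zero, mul_one, mul_neg] at hD e2 <;>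
      omega
  obtain ⟨w, rfl⟩ := hs
  rcases h0 with rfl | rfl | rfl <;> rcases h1 with rfl | rfl | rfl <;>
      rcases h2 with rfl | rfl | rfl <;> simp only [mul_zero, mul_one, mul_neg] at e0 e1 e2 <;>
      omega

theorem exists_S : ∃ S : Finset (Fin 3 → ℤ), S.card = 121 ^ 2 ∧ ∀ x, x ∈ S ↔ ∃ p, cellOf p = x := by
  refine ⟨Finset.univ.image cellOf, ?_, ?_⟩
  · rw [Finset.card_image_of_injective _ cellOf_injective]
    simp [Fintype.card_prod]
  · intro x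
    simp only [Finset.mem_image, Finset.mem_univ, true_and]

theorem S_solution (S : Finset (Fin 3 → ℤ)) (hcard : S.card = 121 ^ 2)
    (mem_S_iff : ∀ x, x ∈ S ↔ ∃ p, cellOf p = x) : IsSolution 121 S := by
  refine ⟨?_, hcard, ?_⟩
  · intro x hx
    obtain ⟨p, rfl⟩ := (mem_S_iff x).1 hx
    have h1 := p.1.2
    have h2 := p.2.2
    have h3 := F_lt p.1.1 p.2.1
    intro i
    fin_cases i
    · show 1 ≤ (p.1.1 : ℤ) + 1 ∧ (p.1.1 : ℤ) + 1 ≤ (121 : ℕ); omega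
    · show 1 ≤ (p.2.1 : ℤ) + 1 ∧ (p.2.1 : ℤ) + 1 ≤ (121 : ℕ); omega
    · show 1 ≤ (F p.1.1 p.2.1 : ℤ) + 1 ∧ (F p.1.1 p.2.1 : ℤ) + 1 ≤ (121 : ℕ); omega
  · intro x hx y hy _ hatt
    obtain ⟨p, rfl⟩ := (mem_S_iff x).1 hx
    obtain ⟨q, rfl⟩ := (mem_S_iff y).1 hy
    obtain ⟨t, v, ht, hv, hvi, hd⟩ := hatt
    apply ht
    refine key p.1.1 p.2.1 q.1.1 q.2.1 p.1.2 p.2.2 q.1.2 q.2.2 t (v 0) (v 1) (v 2) (hvi 0) (hvi 1)
      (hvi 2) ?_ ?_ ?_ ?_
    · rintro ⟨a, b, c⟩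
      apply hv
      funext i
      fin_cases i
      · exact a
      · exact b
      · exact c
    · have := congrFun hd 0
      simp only [cellOf, Pi.sub_apply, Matrix.cons_val_zero, Pi.smul_apply, smul_eq_mul] at this
      linarith
    · have := congrFun hd 1
      simp only [cellOf, Pi.sub_apply, Matrix.cons_val_one, Matrix.cons_val_zero, Pi.smul_apply,
        smul_eq_mul] at this
      linarith
    · have := congrFun hd 2
      simp only [cellOf, Pi.sub_apply, Matrix.cons_val, Pi.smul_apply,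
        smul_eq_mul] at this
      linarith

theorem S_not_regular (S : Finset (Fin 3 → ℤ))
    (mem_S_iff : ∀ x, x ∈ S ↔ ∃ p, cellOf p = x) : ¬ IsRegular 121 S := by
  rintro ⟨a, b, c, h⟩
  have h0 := h (cellOf (0, 0)) ((mem_S_iff _).2 ⟨_, rfl⟩)
  have h1 := h (cellOf (1, 0)) ((mem_S_iff _).2 ⟨_, rfl⟩)
  have h2 := h (cellOf (2, 0)) ((mem_S_iff _).2 ⟨_, rfl⟩)
  have e0 : cellOf (0, 0) = ![1, 1, 12] := by decide
  have e1 : cellOf (1, 0) = ![2, 1, 4] := by decide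
  have e2 : cellOf (2, 0) = ![3, 1, 7] := by decide
  rw [e0] at h0
  rw [e1] at h1
  rw [e2] at h2
  simp only [Matrix.cons_val_zero, Matrix.cons_val_one, Matrix.cons_val, Int.ModEq] at h0 h1 h2
  push_cast at h0 h1 h2
  omega

/-- **MP_70387e_co, Q1, answered affirmatively.**  There are an `n ≥ 1` and a solution of the
`(n,3)`-queens problem that is not regular. -/
theorem result : ∃ n : ℕ, 1 ≤ n ∧ ∃ S : Finset (Fin 3 → ℤ), IsSolution n S ∧ ¬ IsRegular n S := by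
  obtain ⟨S, hc, hm⟩ := exists_S
  exact ⟨121, by norm_num, S, S_solution S hc hm, S_not_regular S hm⟩

end Pool.Agent.Results.MP_70387e_co.NonRegular
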